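import Pool.Agent.Helper69.Enayat.AR
import Pool.Agent.Helper69.Enayat.Spec

/-!
# Enayat models: an arithmetical function is constant or injective on a smaller condition
(module D2)
-/

set_option autoImplicit false

namespace Pool.Agent.Helper69.Enayat

open FirstOrder FirstOrder.Language Pool.Agent.Helper30.SatB Filter

theorem d2_prefix : ArithP (fun p : List Bool × List Bool => p.1 <+: p.2) := by
  have h : ArithP (fun p : List Bool × List Bool => ∃ y : List Bool, p.1 ++ y = p.2) := by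
    refine ArithP.ex (P := fun (p : List Bool × List Bool) (y : List Bool) => p.1 ++ y = p.2) ?_
    refine ArithP.eq (ArithF.of_primrec ?_) (ArithF.of_primrec (Primrec.snd.comp Primrec.fst))
    exact Primrec.list_append.comp (Primrec.fst.comp Primrec.fst) Primrec.snd
  exact h

theorem d2_prefix₂ {α : Type} [Primcodable α] {f g : α → List Bool} (hf : ArithF f)
    (hg : ArithF g) : ArithP (fun a => f a <+: g a) :=
  ArithP.comp₂ (P := fun (s t : List Bool) => s <+: t) d2_prefix hf hg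

theorem d2_le {α : Type} [Primcodable α] {f g : α → ℕ} (hf : ArithF f) (hg : ArithF g) :
    ArithP (fun a => f a ≤ g a) :=
  ArithP.comp₂ (P := fun (m n : ℕ) => m ≤ n)
    (ArithP.of_primrec (Primrec.nat_le.comp Primrec.fst Primrec.snd)) hf hg

/-- the string with code `n` -/
def d2str (n : ℕ) : List Bool := (Encodable.decode n).getD []

theorem d2str_encode (t : List Bool) : d2str (Encodable.encode t) = t := by
  unfold d2str; rw [Encodable.encodek]; rfl

theorem d2str_arith : ArithF d2str :=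
  ArithF.of_primrec (Primrec.option_getD.comp Primrec.decode (Primrec.const []))

/-- the bounds of the recursion -/
def d2b (F : ℕ → ℕ → ℕ) : ℕ → ℕ := fun n => Nat.rec 0 (fun n b => max b (F n b + 1)) n

theorem d2b_succ (F : ℕ → ℕ → ℕ) (n : ℕ) :
    d2b F (n + 1) = max (d2b F n) (F n (d2b F n) + 1) := rfl

theorem d2b_mono (F : ℕ → ℕ → ℕ) {m n : ℕ} (h : m ≤ n) : d2b F m ≤ d2b F n := by
  induction h with
  | refl => exact le_rfl
  | step _ ih => exact ih.trans (by rw [d2b_succ]; exact le_max_left _ _)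

theorem d2b_arith {F : ℕ → ℕ → ℕ} (hF : ArithF (fun p : ℕ × ℕ => F p.1 p.2)) :
    ArithF (d2b F) := by
  have h1 : ArithF (fun p : Unit × ℕ =>
      (Nat.rec ((fun _ : Unit => 0) p.1) ((fun (_ : Unit) n b => max b (F n b + 1)) p.1) p.2 : ℕ)) := by
    refine ArithF.natRec (f := fun _ : Unit => (0 : ℕ))
      (g := fun (_ : Unit) (n b : ℕ) => max b (F n b + 1)) (ArithF.const 0) ?_
    refine ArithF.comp₂ (g := fun (m n : ℕ) => max m n)
      (f := fun p : Unit × (ℕ × ℕ) => p.2.2) (f' := fun p : Unit × (ℕ × ℕ) => F p.2.1 p.2.2 + 1)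
      (ArithF.of_primrec (Primrec.nat_max.comp Primrec.fst Primrec.snd))
      (ArithF.of_primrec (Primrec.snd.comp Primrec.snd)) ?_
    refine ArithF.comp (g := fun n : ℕ => n + 1) (f := fun p : Unit × (ℕ × ℕ) => F p.2.1 p.2.2)
      (ArithF.of_primrec Primrec.succ) ?_
    exact ArithF.comp (g := fun p : ℕ × ℕ => F p.1 p.2) (f := fun p : Unit × (ℕ × ℕ) => p.2) hF
      (ArithF.of_primrec Primrec.snd)
  exact ArithF.comp (g := fun p : Unit × ℕ =>
      (Nat.rec ((fun _ : Unit => 0) p.1) ((fun (_ : Unit) n b => max b (F n b + 1)) p.1) p.2 : ℕ))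
    (f := fun n : ℕ => ((), n)) h1
    (ArithF.of_primrec (Primrec.pair (Primrec.const ()) Primrec.id))

/-- module D2 -/
theorem dense_inj (C : Cond) {f : List Bool → ℕ} (hf : ArithF f) :
    ∃ D : Cond, D.Le C ∧ ((∃ n, ∀ x, D.A x → f x = n) ∨
      ∀ x y, D.A x → D.A y → f x = f y → x = y) := by
  by_cases h1 : ∃ t₀ n, C.T t₀ ∧ ∀ t, C.T t → t₀ <+: t → ∃ x, C.A x ∧ t <+: x ∧ f x = n
  · obtain ⟨t₀, n, ht₀, h⟩ := h1
    refine ⟨⟨fun x => C.A x ∧ f x = n, fun t => C.T t ∧ t₀ <+: t,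
      C.arA.and (ArithP.eq hf (ArithF.const n)),
      C.arT.and (d2_prefix₂ (ArithF.const t₀) ArithF.id), ⟨t₀, ht₀, List.prefix_refl _⟩, ?_, ?_⟩,
      ⟨fun x hx => hx.1, fun x hx => hx.1⟩, Or.inl ⟨n, fun x hx => hx.2⟩⟩
    · rintro s ⟨hs, hts⟩
      obtain ⟨t₁, t₂, h1, h2, h3, h4, h5⟩ := C.split s hs
      exact ⟨t₁, t₂, ⟨h1, hts.trans h3⟩, ⟨h2, hts.trans h4⟩, h3, h4, h5⟩
    · rintro s ⟨hs, hts⟩
      obtain ⟨x, hx, hsx, hfx⟩ := h s hs hts
      exact ⟨x, ⟨hx, hfx⟩, hsx⟩
  · have h2 : ∀ t₀ n, C.T t₀ → ∃ t, C.T t ∧ t₀ <+: t ∧ ∀ x, C.A x → t <+: x → f x ≠ n := by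
      intro t₀ n ht₀
      by_contra hcon
      refine h1 ⟨t₀, n, ht₀, fun t ht htt => ?_⟩
      by_contra hcon2
      exact hcon ⟨t, ht, htt, fun x hx htx hfx => hcon2 ⟨x, hx, htx, hfx⟩⟩
    have h3 : ∀ N t₀, C.T t₀ → ∃ t, C.T t ∧ t₀ <+: t ∧ ∀ x, C.A x → t <+: x → N ≤ f x := by
      intro N
      induction N with
      | zero => exact fun t₀ ht₀ => ⟨t₀, ht₀, List.prefix_refl _, fun x _ _ => Nat.zero_le _⟩
      | succ N ih =>
        intro t₀ ht₀
        obtain ⟨t, ht, htt, hN⟩ := ih t₀ ht₀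
        obtain ⟨t', ht', htt', hN'⟩ := h2 t N ht
        refine ⟨t', ht', htt.trans htt', fun x hx hx' => ?_⟩
        have := hN x hx (htt'.trans hx')
        have := hN' x hx hx'
        omega
    have h4 : ∀ p : List Bool × ℕ, C.T p.1 → ∃ x, C.A x ∧ p.1 <+: x ∧ p.2 ≤ f x := by
      rintro ⟨t₀, N⟩ ht₀
      obtain ⟨t, ht, htt, hN⟩ := h3 N t₀ ht₀
      obtain ⟨x, hx, htx⟩ := C.dense t ht
      exact ⟨x, hx, htt.trans htx, hN x hx htx⟩
    obtain ⟨c, hc, hcP⟩ := ArithP.skolem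
      (P := fun (p : List Bool × ℕ) (x : List Bool) => C.A x ∧ p.1 <+: x ∧ p.2 ≤ f x) (by
        refine (C.arA.comp ArithF.id.snd).and (ArithP.and ?_ ?_)
        · exact d2_prefix₂ (ArithF.of_primrec (Primrec.fst.comp Primrec.fst)) ArithF.id.snd
        · exact d2_le (ArithF.of_primrec (Primrec.snd.comp Primrec.fst)) (hf.comp ArithF.id.snd))
    have hc' : ∀ t N, C.T t → C.A (c (t, N)) ∧ t <+: c (t, N) ∧ N ≤ f (c (t, N)) :=
      fun t N ht => hcP (t, N) (h4 (t, N) ht)
    have hF : ArithF (fun p : ℕ × ℕ => (fun n b => f (c (d2str n, b))) p.1 p.2) := by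
      refine hf.comp (hc.comp ?_)
      exact ArithF.pair (d2str_arith.comp ArithF.id.fst) ArithF.id.snd
    have hb := d2b_arith (F := fun n b => f (c (d2str n, b))) hF
    have hx : ArithF (fun n : ℕ => c (d2str n, d2b (fun n b => f (c (d2str n, b))) n)) :=
      hc.comp (ArithF.pair d2str_arith hb)
    refine ⟨⟨fun x => ∃ n, C.T (d2str n) ∧ x = c (d2str n, d2b (fun n b => f (c (d2str n, b))) n),
      C.T, ?_, C.arT, C.ne, C.split, ?_⟩, ⟨?_, fun x hx => hx⟩, Or.inr ?_⟩
    · refine ArithP.ex (P := fun (x : List Bool) (n : ℕ) => C.T (d2str n) ∧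
        x = c (d2str n, d2b (fun n b => f (c (d2str n, b))) n)) ?_
      refine (C.arT.comp (d2str_arith.comp ArithF.id.snd)).and ?_
      exact ArithP.eq ArithF.id.fst (hx.comp ArithF.id.snd)
    · intro t ht
      have e := d2str_encode t
      refine ⟨_, ⟨Encodable.encode t, by rw [e]; exact ht, rfl⟩, ?_⟩
      rw [e]
      exact (hc' t _ ht).2.1
    · rintro x ⟨n, hn, rfl⟩
      exact (hc' _ _ hn).1
    · rintro x y ⟨n, hn, rfl⟩ ⟨m, hm, rfl⟩ hxy
      have key : ∀ n m, C.T (d2str n) → C.T (d2str m) → n < m →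
          f (c (d2str n, d2b (fun n b => f (c (d2str n, b))) n)) <
          f (c (d2str m, d2b (fun n b => f (c (d2str n, b))) m)) := by
        intro n m _ hm hnm
        have h5 := (hc' (d2str m) (d2b (fun n b => f (c (d2str n, b))) m) hm).2.2
        have h6 := d2b_mono (fun n b => f (c (d2str n, b))) (show n + 1 ≤ m from hnm)
        have h7 : f (c (d2str n, d2b (fun n b => f (c (d2str n, b))) n)) + 1 ≤
            d2b (fun n b => f (c (d2str n, b))) (n + 1) := by
          rw [d2b_succ]; exact le_max_right _ _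
        omega
      rcases lt_trichotomy n m with h | h | h
      · have := key n m hn hm h; omega
      · rw [h]
      · have := key m n hm hn h; omega

end Pool.Agent.Helper69.Enayat
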