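import Pool.Agent.Helper69.Enayat.AR
import Pool.Agent.Helper69.Enayat.Spec

/-!
# Enayat models: restriction of conditions to long stems off a given real (module D4)
-/

set_option autoImplicit false

namespace Pool.Agent.Helper69.Enayat

open FirstOrder FirstOrder.Language Pool.Agent.Helper30.SatB Filter

theorem d4_prefix (t : List Bool) : ArithP (fun x : List Bool => t <+: x) := by
  have h : ArithP (fun x : List Bool => ∃ y : List Bool, t ++ y = x) := by
    refine ArithP.ex (P := fun (x y : List Bool) => t ++ y = x) ?_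
    refine ArithP.eq (ArithF.of_primrec ?_) (ArithF.of_primrec Primrec.fst)
    exact Primrec.list_append.comp (Primrec.const t) Primrec.snd
  exact h

/-- restriction of a condition to the extensions of a string -/
def Cond.d4restrict (C : Cond) (t : List Bool) (ht : C.T t) : Cond where
  A := fun x => C.A x ∧ t <+: x
  T := fun x => C.T x ∧ t <+: x
  arA := C.arA.and (d4_prefix t)
  arT := C.arT.and (d4_prefix t)
  ne := ⟨t, ht, List.prefix_refl t⟩
  split := by
    rintro s ⟨hs, hts⟩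
    obtain ⟨t₁, t₂, h1, h2, h3, h4, h5⟩ := C.split s hs
    exact ⟨t₁, t₂, ⟨h1, hts.trans h3⟩, ⟨h2, hts.trans h4⟩, h3, h4, h5⟩
  dense := by
    rintro s ⟨hs, hts⟩
    obtain ⟨x, hx, hsx⟩ := C.dense s hs
    exact ⟨x, ⟨hx, hts.trans hsx⟩, hsx⟩

theorem Cond.d4_long (C : Cond) (n : ℕ) : ∃ t, C.T t ∧ n ≤ t.length := by
  induction n with
  | zero =>
    obtain ⟨t, ht⟩ := C.ne
    exact ⟨t, ht, Nat.zero_le _⟩
  | succ n ih =>
    obtain ⟨t, ht, hn⟩ := ih
    obtain ⟨t₁, t₂, h1, h2, h3, h4, h5⟩ := C.split t ht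
    refine ⟨t₁, h1, ?_⟩
    by_contra h
    have h6 : t₁.length ≤ t.length := by omega
    have h7 : t = t₁ := h3.eq_of_length_le h6
    exact h5.1 (h7 ▸ h4)

theorem d4_prefix_of_real (Z : ℕ → Bool) (s t : List Bool) (hst : s.length ≤ t.length)
    (hs : ∀ i < s.length, s[i]? = some (Z i)) (ht : ∀ i < t.length, t[i]? = some (Z i)) :
    s <+: t := by
  rw [List.prefix_iff_eq_take]
  apply List.ext_getElem?
  intro i
  rw [List.getElem?_take]
  by_cases hi : i < s.length
  · rw [if_pos hi, hs i hi, ht i (by omega)]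
  · rw [if_neg hi]
    exact List.getElem?_eq_none (by omega)

/-- module D4 -/
theorem dense_stem (C : Cond) (Z : ℕ → Bool) (n : ℕ) :
    ∃ D : Cond, D.Le C ∧ ∃ t : List Bool, n ≤ t.length ∧ (∀ x, D.A x → t <+: x) ∧
      (∀ x, D.T x → t <+: x) ∧ ∃ i < t.length, t[i]? ≠ some (Z i) := by
  obtain ⟨t, ht, hn⟩ := C.d4_long n
  obtain ⟨t₁, t₂, h1, h2, h3, h4, h5⟩ := C.split t ht
  have key : ∀ s, C.T s → t <+: s → (∃ i < s.length, s[i]? ≠ some (Z i)) →
      ∃ D : Cond, D.Le C ∧ ∃ t : List Bool, n ≤ t.length ∧ (∀ x, D.A x → t <+: x) ∧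
      (∀ x, D.T x → t <+: x) ∧ ∃ i < t.length, t[i]? ≠ some (Z i) := by
    intro s hs hts hi
    refine ⟨C.d4restrict s hs, ⟨fun x hx => hx.1, fun x hx => hx.1⟩, s, hn.trans hts.length_le,
      fun x hx => hx.2, fun x hx => hx.2, hi⟩
  by_cases hi : ∃ i < t₁.length, t₁[i]? ≠ some (Z i)
  · exact key t₁ h1 h3 hi
  by_cases hi' : ∃ i < t₂.length, t₂[i]? ≠ some (Z i)
  · exact key t₂ h2 h4 hi'
  exfalso
  push Not at hi hi'
  rcases le_total t₁.length t₂.length with hl | hl
  · exact h5.1 (d4_prefix_of_real Z _ _ hl hi hi')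
  · exact h5.2 (d4_prefix_of_real Z _ _ hl hi' hi)

end Pool.Agent.Helper69.Enayat
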