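import Pool.Agent.Helper69.Enayat.AR
import Pool.Agent.Helper69.Enayat.Spec

/-!
# Enayat models: the definable ultrapower of the standard model (module LOS)
-/

set_option autoImplicit false

namespace Pool.Agent.Helper69.Enayat

open FirstOrder FirstOrder.Language Pool.Agent.Helper30.SatB Filter

/-- the ultrapower of the standard model -/
abbrev LosProd (U : Ultrafilter (List Bool)) : Type :=
  (U : Filter (List Bool)).Product (fun _ => ℕ)

/-- the germ of a function -/
def losMk (U : Ultrafilter (List Bool)) (f : List Bool → ℕ) : LosProd U :=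
  @Quotient.mk' _ ((U : Filter (List Bool)).productSetoid (fun _ => ℕ)) f

theorem los_all (U : Ultrafilter (List Bool)) {ι : Type} {n : ℕ}
    (φ : arithLang.BoundedFormula ι n) (f : ι → List Bool → ℕ) (g : Fin n → List Bool → ℕ) :
    φ.Realize (fun i => losMk U (f i)) (fun i => losMk U (g i)) ↔
      ∀ᶠ x in (U : Filter (List Bool)), φ.Realize (fun i => f i x) (fun i => g i x) :=
  Ultraproduct.boundedFormula_realize_cast φ f g

theorem los_funMap (U : Ultrafilter (List Bool)) {n : ℕ} (F : arithLang.Functions n)
    (x : Fin n → List Bool → ℕ) :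
    (Structure.funMap F fun i => losMk U (x i)) =
      losMk U (fun a => Structure.funMap F fun i => x i a) :=
  Ultraproduct.funMap_cast F x

/-- the graph of a function symbol at arithmetical arguments -/
theorem los_arith_funMap {n : ℕ} (F : arithLang.Functions n) (x : Fin n → List Bool → ℕ)
    (hx : ∀ i, ArithF (x i)) : ArithF (fun a => Structure.funMap F fun i => x i a) := by
  have h := ArithP.realize (α := List Bool × ℕ) (ι := Option (Fin n)) (n := 0)
    (Term.bdEqual (Term.func F (fun i => Term.var (Sum.inl (some i)))) (Term.var (Sum.inl none)))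
    (fun i p => i.elim p.2 (fun j => x j p.1)) (fun i => i.elim0) (by
      rintro (_ | i)
      · exact ArithF.id.snd
      · exact (hx i).comp ArithF.id.fst) (fun i => i.elim0)
  refine h.congr ?_
  rintro ⟨a, m⟩
  rw [BoundedFormula.realize_bdEqual]
  rfl

/-- the substructure of the germs of arithmetical functions -/
def losSub (U : Ultrafilter (List Bool)) : arithLang.Substructure (LosProd U) where
  carrier := {z | ∃ f : ArF, losMk U f.1 = z}
  fun_mem := by
    intro n F x hx
    choose f hf using hx
    refine ⟨⟨fun a => Structure.funMap F fun i => (f i).1 a,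
      los_arith_funMap F (fun i => (f i).1) (fun i => (f i).2)⟩, ?_⟩
    change losMk U (fun a => Structure.funMap F fun i => (f i).1 a) = _
    rw [← los_funMap]
    congr 1
    funext i
    exact hf i

theorem losSub_elem (U : Ultrafilter (List Bool)) : (losSub U).IsElementary := by
  refine (losSub U).isElementary_of_exists ?_
  intro n φ x a ha
  have hx : ∀ i, ∃ f : ArF, losMk U f.1 = (x i : LosProd U) := fun i => (x i).2
  choose f hf using hx
  obtain ⟨g, rfl⟩ : ∃ g : List Bool → ℕ, losMk U g = a := by
    induction a using Quotient.inductionOn' with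
    | h g => exact ⟨g, rfl⟩
  have key : ∀ (d : Empty → LosProd U) (g : List Bool → ℕ),
      (φ.Realize d (Fin.snoc ((↑) ∘ x) (losMk U g) : _ → LosProd U) ↔
      ∀ᶠ s in (U : Filter (List Bool)),
        φ.Realize (default : Empty → ℕ) (Fin.snoc (fun i => (f i).1 s) (g s) : _ → ℕ)) := by
    intro d g
    have h1 := los_all U φ (fun i : Empty => i.elim)
      (Fin.snoc (α := fun _ => List Bool → ℕ) (fun i => (f i).1) g)
    have e1 : (fun i => losMk U
        ((Fin.snoc (α := fun _ => List Bool → ℕ) (fun i => (f i).1) g : _ → _) i)) =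
        (Fin.snoc ((↑) ∘ x) (losMk U g) : _ → LosProd U) := by
      funext i
      refine Fin.lastCases ?_ (fun i => ?_) i
      · simp only [Fin.snoc_last]
      · simp only [Fin.snoc_castSucc, Function.comp_apply]
        exact hf i
    have e2 : ∀ s, (fun i =>
        ((Fin.snoc (α := fun _ => List Bool → ℕ) (fun i => (f i).1) g : _ → _) i) s) =
        (Fin.snoc (fun i => (f i).1 s) (g s) : _ → ℕ) := by
      intro s
      funext i
      refine Fin.lastCases ?_ (fun i => ?_) i
      · simp only [Fin.snoc_last]
      · simp only [Fin.snoc_castSucc]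
    have e3 : (fun i : Empty => losMk U ((fun i : Empty => i.elim) i : List Bool → ℕ)) =
        d := Subsingleton.elim _ _
    rw [e1, e3] at h1
    rw [h1]
    refine eventually_congr (Eventually.of_forall fun s => ?_)
    rw [e2]
    have e4 : (fun i : Empty => ((fun i : Empty => i.elim) i : List Bool → ℕ) s) =
      (default : Empty → ℕ) := Subsingleton.elim _ _
    rw [e4]
  have h1 := (key _ g).1 ha
  obtain ⟨h, hh, hP⟩ := ArithP.skolem (α := List Bool) (β := ℕ)
    (P := fun s y => φ.Realize (default : Empty → ℕ) (Fin.snoc (fun i => (f i).1 s) y : _ → ℕ)) (by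
      have h2 := ArithP.realize (α := List Bool × ℕ) φ (fun i : Empty => i.elim)
        (Fin.snoc (α := fun _ => List Bool × ℕ → ℕ) (fun i p => (f i).1 p.1) (fun p => p.2))
        (fun i => i.elim) (fun i => by
          refine Fin.lastCases ?_ (fun i => ?_) i
          · simp only [Fin.snoc_last]
            exact ArithF.id.snd
          · simp only [Fin.snoc_castSucc]
            exact (f i).2.comp ArithF.id.fst)
      refine h2.congr ?_
      rintro ⟨s, y⟩
      have e2 : (fun i => ((Fin.snoc (α := fun _ => List Bool × ℕ → ℕ)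
          (fun i p => (f i).1 p.1) (fun p => p.2) : _ → _) i) (s, y)) =
          (Fin.snoc (fun i => (f i).1 s) y : _ → ℕ) := by
        funext i
        refine Fin.lastCases ?_ (fun i => ?_) i
        · simp only [Fin.snoc_last]
        · simp only [Fin.snoc_castSucc]
      rw [e2]
      have e4 : (fun i : Empty => ((fun i : Empty => i.elim) i : List Bool × ℕ → ℕ) (s, y)) =
        (default : Empty → ℕ) := Subsingleton.elim _ _
      rw [e4])
  refine ⟨⟨losMk U h, ⟨⟨h, hh⟩, rfl⟩⟩, (key _ h).2 (h1.mono fun s hs => ?_)⟩
  exact hP s ⟨_, hs⟩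

/-- the elementary substructure of the germs of arithmetical functions -/
def losElem (U : Ultrafilter (List Bool)) : arithLang.ElementarySubstructure (LosProd U) :=
  ⟨losSub U, losSub_elem U⟩

/-- module LOS -/
theorem exists_isUP (U : Ultrafilter (List Bool)) :
    ∃ (M : Type) (_ : arithLang.Structure M) (mk : ArF → M), IsUP U M mk := by
  refine ⟨losElem U, inferInstance, fun f => ⟨losMk U f.1, ⟨f, rfl⟩⟩, ?_, ?_⟩
  · rintro ⟨z, f, rfl⟩
    exact ⟨f, rfl⟩
  · intro ι n φ f g
    have h1 := (losElem U).subtype.map_boundedFormula φ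
      (fun i => (⟨losMk U (f i).1, ⟨f i, rfl⟩⟩ : losElem U))
      (fun i => (⟨losMk U (g i).1, ⟨g i, rfl⟩⟩ : losElem U))
    exact h1.symm.trans (los_all U φ (fun i => (f i).1) (fun i => (g i).1))

end Pool.Agent.Helper69.Enayat
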